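import Mathlib
import Pool.Agent.H21.UE.Defs
import Pool.Agent.H21.UE.M1
import Pool.Agent.H21.UE.MII

/-!
# Module RED, part 1: equalising the minima below a gap (Davenport's lemma)
-/

open MvPolynomial NumberField

namespace Pool.Agent.H21.UE.RedAux

universe u

variable {L : Type u} [Field L] [NumberField L] {ι : Type} [Fintype ι] [DecidableEq ι]

/-- M1 for families indexed by `Fin`. -/
theorem one_le_fac_prod (hM1 : T_M1.{u}) (B : InfinitePlace L → Matrix ι ι ℤ)
    (w : InfinitePlace L → ι → ℝ) (hB : ∀ v, (B v).det ≠ 0) (hw : NW w)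
    (x : Fin (Fintype.card ι) → ι → L) (hint : ∀ a j, IsIntegral ℤ (x a j))
    (hli : LinearIndependent L x) :
    1 ≤ ((Fintype.card ι).factorial : ℝ) * ∏ a, Nw B w (x a) := by
  let e : ι ≃ Fin (Fintype.card ι) := Fintype.equivFin ι
  have h := hM1 L ι B w (x ∘ e) (fun i => Nw B w (x (e i))) hB hw
    (fun a j => hint _ j) (hli.comp _ e.injective) (fun a => Nw_nonneg B w hw.1 _)
    (fun a v i => lf_le_Nw B w hw.1 _ v i)
  rwa [Equiv.prod_comp e fun a => Nw B w (x a)] at h

omit [DecidableEq ι] in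
/-- `j + 1` independent integral vectors are not all shorter than the `j`-th minimum -/
theorem exists_ge {B : InfinitePlace L → Matrix ι ι ℤ} {w : InfinitePlace L → ι → ℝ}
    {x : Fin (Fintype.card ι) → ι → L} (hx : MinSys B w x) (j : Fin (Fintype.card ι))
    {κ : Type} [Fintype κ] (hκ : (j : ℕ) < Fintype.card κ) (z : κ → ι → L)
    (hint : ∀ c i, IsIntegral ℤ (z c i)) (hli : LinearIndependent L z) :
    ∃ c, Nw B w (x j) ≤ Nw B w (z c) := by
  classical
  by_contra hcon
  push Not at hcon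
  have h1 : ∀ c, z c ∈ Submodule.span L (x '' {b | b < j}) :=
    fun c => hx.min (z c) (hint c) j (hcon c)
  have h2 : Submodule.span L (Set.range z) ≤ Submodule.span L (x '' {b | b < j}) := by
    rw [Submodule.span_le]
    rintro _ ⟨c, rfl⟩
    exact h1 c
  have h3 : Module.finrank L (Submodule.span L (Set.range z)) = Fintype.card κ :=
    finrank_span_eq_card hli
  have h4 : Module.finrank L (Submodule.span L (x '' {b | b < j})) ≤ (j : ℕ) := by
    have h5 : x '' {b | b < j} = ((Finset.univ.filter fun b => b < j).image x : Finset (ι → L)) := by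
      ext y
      simp
    rw [h5]
    refine (finrank_span_finset_le_card _).trans (Finset.card_image_le.trans ?_)
    rw [show (Finset.univ.filter fun b => b < j) = Finset.Iio j by ext; simp, Fin.card_Iio]
  have h6 := Submodule.finrank_mono h2
  omega

omit [NumberField L] [DecidableEq ι] in
/-- the span of the vectors below the last one -/
theorem finrank_below (x : Fin (Fintype.card ι) → ι → L) (hli : LinearIndependent L x)
    (b : Fin (Fintype.card ι)) :
    Module.finrank L (Submodule.span L (x '' {c | c < b})) = (b : ℕ) := by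
  have h5 : x '' {c | c < b} = Set.range fun c : {c // c < b} => x c := by
    ext y
    constructor
    · rintro ⟨c, hc, rfl⟩
      exact ⟨⟨c, hc⟩, rfl⟩
    · rintro ⟨⟨c, hc⟩, rfl⟩
      exact ⟨c, hc, rfl⟩
  have h6 : LinearIndependent L fun c : {c // c < b} => x c :=
    hli.comp _ Subtype.val_injective
  rw [h5, finrank_span_eq_card h6, Fintype.card_subtype]
  rw [show (Finset.univ.filter fun c => c < b) = Finset.Iio b by ext; simp, Fin.card_Iio]

theorem gap (hDAV : T_DAV.{u}) (hMII : T_MII.{u}) (hM1 : T_M1.{u}) (hMIN : T_MIN.{u})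
    (hN : 2 ≤ Fintype.card ι) (B : InfinitePlace L → Matrix ι ι ℤ) (hB : ∀ v, (B v).det ≠ 0) :
    ∃ D G₁ : ℝ, 0 < D ∧ 1 ≤ G₁ ∧ ∀ w : InfinitePlace L → ι → ℝ, NW w →
    ∀ Y : Fin (Fintype.card ι) → ι → L, MinSys B w Y →
    ∀ a b : Fin (Fintype.card ι), (a : ℕ) + 2 = Fintype.card ι → (b : ℕ) + 1 = Fintype.card ι →
    ∀ g : ℝ, G₁ ≤ g → g * Nw B w (Y a) ≤ Nw B w (Y b) →
    ∃ w' : InfinitePlace L → ι → ℝ, NW w' ∧
      (∀ U : ℝ, (∀ j, Nw B w (Y j) ≤ U) → ∀ v i,
        w' v i ≤ w v i * ((Fintype.card ι).factorial * U ^ Fintype.card ι) ∧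
        w v i ≤ w' v i * ((Fintype.card ι).factorial * U ^ Fintype.card ι)) ∧
      Submodule.span L (Y '' {c | c < b}) =
        Submodule.span L (Sm B w' (D * g ^ (-(1 / (Fintype.card ι : ℝ))))) := by
  have hne : Nonempty ι := by
    rw [← Fintype.card_pos_iff]
    omega
  set N := Fintype.card ι with hNdef
  obtain ⟨d, hd0, hd⟩ := hDAV N
  obtain ⟨D₂, hD₂0, hD₂⟩ := hMII L ι B hB
  set P : ℝ := ((Fintype.card (InfinitePlace L) : ℕ) : ℝ) with hP
  have hP0 : 0 < P := by
    rw [hP]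
    exact_mod_cast Fintype.card_pos (α := InfinitePlace L)
  clear_value P
  have hN0 : (0 : ℝ) < N := by
    have : 0 < N := by omega
    exact_mod_cast this
  set fac : ℝ := (N.factorial : ℝ) with hfac
  have hfac1 : 1 ≤ fac := by
    rw [hfac]
    exact_mod_cast Nat.factorial_pos N
  have hfac0 : 0 < fac := lt_of_lt_of_le one_pos hfac1
  clear_value fac
  set C₃ : ℝ := D₂ * fac / d ^ (N - 1) with hC₃
  have hC₃0 : 0 < C₃ := by positivity
  clear_value C₃
  set D : ℝ := 1 + C₃ ^ N * D₂ with hD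
  have hD1 : 1 ≤ D := by
    have : 0 < C₃ ^ N * D₂ := by positivity
    linarith
  have hD0 : 0 < D := lt_of_lt_of_le one_pos hD1
  have hDN : C₃ ^ N * D₂ ≤ D ^ N := by
    have h1 : D ≤ D ^ N := le_self_pow₀ hD1 (by omega)
    linarith
  clear_value D
  refine ⟨D, 1 + fac * (P * N * D / d) ^ N, hD0, ?_, ?_⟩
  · have : 0 < fac * (P * N * D / d) ^ N := by positivity
    linarith
  intro w hw Y hY a b ha hb g hg hgap
  have hg1 : 1 ≤ g := by
    have : 0 < fac * (P * N * D / d) ^ N := by positivity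
    linarith
  have hg0 : 0 < g := lt_of_lt_of_le one_pos hg1
  set ν : Fin N → ℝ := fun j => Nw B w (Y j) with hν
  have hν0 : ∀ j, 0 < ν j := fun j => Nw_pos B w hB hw.1 _ (hY.li.ne_zero j)
  have hνmono : Monotone ν := hY.mono
  have hgap' : g * ν a ≤ ν b := hgap
  have hab : a < b := by
    rw [Fin.lt_def]; omega
  have hmin : ∀ j : Fin N, j ≠ b → min j a = j := by
    intro j hj
    refine min_eq_left ?_
    rw [Fin.le_def]
    have h1 : (j : ℕ) ≠ b := fun h => hj (Fin.ext h)
    have h2 := j.2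
    omega
  have hminb : min b a = a := min_eq_right hab.le
  set κ : ℝ := (∏ j, ν (min j a)) ^ ((N : ℝ)⁻¹) with hκ
  have hP' : 0 < ∏ j, ν (min j a) := Finset.prod_pos fun j _ => hν0 _
  have hκ0 : 0 < κ := Real.rpow_pos_of_pos hP' _
  have hκN : κ ^ N = ∏ j, ν (min j a) :=
    Real.rpow_inv_natCast_pow hP'.le (by omega)
  clear_value κ
  set Pi : ℝ := ∏ j, ν j with hPi
  have hPi0 : 0 < Pi := Finset.prod_pos fun j _ => hν0 j
  have hrel : κ ^ N * ν b = Pi * ν a := by
    rw [hκN, hPi, ← Finset.mul_prod_erase Finset.univ _ (Finset.mem_univ b),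
      ← Finset.mul_prod_erase Finset.univ ν (Finset.mem_univ b), hminb]
    rw [Finset.prod_congr rfl fun j hj => by rw [hmin j (Finset.ne_of_mem_erase hj)]]
    ring
  have hPiD : Pi ≤ D₂ := hD₂ w hw Y hY
  have hPif : 1 ≤ fac * Pi := by
    rw [hfac]
    exact one_le_fac_prod hM1 B w hB hw Y hY.int hY.li
  clear_value Pi
  -- the weights
  set ρ : Fin N → ℝ := fun j => κ / ν (min j a) with hρ
  have hρ0 : ∀ j, 0 < ρ j := fun j => div_pos hκ0 (hν0 _)
  have hanti : Antitone ρ := fun i j hij =>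
    div_le_div_of_nonneg_left hκ0.le (hν0 _) (hνmono (min_le_min_right a hij))
  have hρν : ∀ j, j ≠ b → ρ j * ν j = κ := by
    intro j hj
    simp only [hρ]
    rw [hmin j hj, div_mul_cancel₀ _ (hν0 j).ne']
  set gr : ℝ := ν b / ν a with hgrdef
  have hgr : g ≤ gr := (le_div_iff₀ (hν0 a)).2 hgap'
  have hgr1 : 1 ≤ gr := hg1.trans hgr
  have hgr0 : 0 < gr := lt_of_lt_of_le one_pos hgr1
  have hρb : ρ b * ν b = κ * gr := by
    simp only [hρ]
    rw [hminb, hgrdef]
    ring
  have hrel' : κ ^ N * gr = Pi := by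
    rw [hgrdef, ← mul_div_assoc, hrel, mul_div_assoc, div_self (hν0 a).ne', mul_one]
  clear_value gr
  have hlast : ∀ j : Fin N, j ≤ b := by
    intro j
    rw [Fin.le_def]
    have := j.2
    omega
  have hmono : Monotone fun j => ρ j * ν j := by
    intro i j hij
    simp only
    by_cases hj : j = b
    · subst hj
      by_cases hi : i = j
      · rw [hi]
      · rw [hρν i hi, hρb]
        exact le_mul_of_one_le_right hκ0.le hgr1
    · have hi : i ≠ b := fun h => hj (le_antisymm (hlast j) (h ▸ hij))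
      rw [hρν i hi, hρν j hj]
  have hprod : ∏ j, ρ j = 1 := by
    simp only [hρ]
    rw [Finset.prod_div_distrib, Finset.prod_const, Finset.card_univ, Fintype.card_fin, hκN,
      div_self hP'.ne']
  obtain ⟨π, hπ⟩ := hd L ι rfl B w hB hw.1 Y hY ρ hρ0 hanti hmono
  set w' : InfinitePlace L → ι → ℝ := fun v i => w v i / ρ (π v i) with hw'def
  have hw' : NW w' := NW_div w hw ρ hρ0 hprod π
  -- lower bounds for the new norm
  have hlow0 : ∀ y : ι → L, (∀ j, IsIntegral ℤ (y j)) → y ≠ 0 → d * κ ≤ Nw B w' y := by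
    intro y hy hy0
    have hN' : 0 < N := by omega
    have h1 := hπ y hy ⟨0, hN'⟩ (by
      have : {b : Fin N | b < ⟨0, hN'⟩} = ∅ := by
        ext c
        simp
      rw [this, Set.image_empty, Submodule.span_empty, Submodule.mem_bot]
      exact hy0)
    have h2 : (⟨0, hN'⟩ : Fin N) ≠ b := by
      intro h
      have := congrArg Fin.val h
      simp only at this
      omega
    have h3 := hρν _ h2
    calc d * κ = d * ρ ⟨0, hN'⟩ * ν ⟨0, hN'⟩ := by rw [mul_assoc, h3]
      _ ≤ Nw B w' y := h1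
  have hlowb : ∀ y : ι → L, (∀ j, IsIntegral ℤ (y j)) →
      y ∉ Submodule.span L (Y '' {c | c < b}) → d * (κ * gr) ≤ Nw B w' y := by
    intro y hy hyb
    calc d * (κ * gr) = d * ρ b * ν b := by rw [mul_assoc, hρb]
      _ ≤ Nw B w' y := hπ y hy b hyb
  obtain ⟨Y', hY'⟩ := hMIN L ι B w' hB hw'.1
  set ν' : Fin N → ℝ := fun j => Nw B w' (Y' j) with hν'
  have hν'low : ∀ j, d * κ ≤ ν' j := fun j => hlow0 _ (hY'.int j) (hY'.li.ne_zero j)
  have hdκ : 0 < d * κ := mul_pos hd0 hκ0
  have hν'0 : ∀ j, 0 < ν' j := fun j => lt_of_lt_of_le hdκ (hν'low j)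
  set V := Submodule.span L (Y '' {c | c < b}) with hV
  have hVrank : Module.finrank L V = (b : ℕ) := finrank_below Y hY.li b
  have hex : ∃ j, Y' j ∉ V := by
    by_contra hcon
    push Not at hcon
    have h1 : Submodule.span L (Set.range Y') ≤ V := by
      rw [Submodule.span_le]
      rintro _ ⟨c, rfl⟩
      exact hcon c
    have h2 := Submodule.finrank_mono h1
    rw [finrank_span_eq_card hY'.li, Fintype.card_fin, hVrank] at h2
    omega
  have hν'b : d * (κ * gr) ≤ ν' b := by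
    obtain ⟨j, hj⟩ := hex
    exact (hlowb _ (hY'.int j) hj).trans (hY'.mono (hlast j))
  have hν'D : ∏ j, ν' j ≤ D₂ := hD₂ w' hw' Y' hY'
  have hup : ∀ j, j ≠ b → ν' j ≤ C₃ * κ := by
    intro j hj
    have h1 : ν' b * (ν' j * (d * κ) ^ (N - 2)) ≤ ∏ j, ν' j := by
      rw [← Finset.mul_prod_erase Finset.univ ν' (Finset.mem_univ b)]
      refine mul_le_mul_of_nonneg_left ?_ (hν'0 b).le
      rw [← Finset.mul_prod_erase (Finset.univ.erase b) ν'
        (Finset.mem_erase.2 ⟨hj, Finset.mem_univ j⟩)]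
      refine mul_le_mul_of_nonneg_left ?_ (hν'0 j).le
      have hcard : ((Finset.univ.erase b).erase j).card = N - 2 := by
        rw [Finset.card_erase_of_mem (Finset.mem_erase.2 ⟨hj, Finset.mem_univ j⟩),
          Finset.card_erase_of_mem (Finset.mem_univ b), Finset.card_univ, Fintype.card_fin]
        omega
      rw [← hcard, ← Finset.prod_const]
      exact Finset.prod_le_prod (fun _ _ => hdκ.le) fun i _ => hν'low i
    have h2 : d * (κ * gr) * (ν' j * (d * κ) ^ (N - 2)) ≤ D₂ :=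
      (mul_le_mul_of_nonneg_right hν'b (mul_nonneg (hν'0 j).le (pow_nonneg hdκ.le _))).trans
        (h1.trans hν'D)
    have h3 : ν' j * d ^ (N - 1) * Pi ≤ D₂ * κ := by
      have h4 : ν' j * d ^ (N - 1) * Pi =
          κ * (d * (κ * gr) * (ν' j * (d * κ) ^ (N - 2))) := by
        obtain ⟨k, hk⟩ : ∃ k, N = k + 2 := ⟨N - 2, by omega⟩
        rw [← hrel', hk]
        have e1 : k + 2 - 1 = k + 1 := by omega
        have e2 : k + 2 - 2 = k := by omega
        rw [e1, e2, mul_pow]
        ring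
      rw [h4, mul_comm D₂ κ]
      exact mul_le_mul_of_nonneg_left h2 hκ0.le
    have h5 : ν' j * d ^ (N - 1) ≤ fac * (D₂ * κ) := by
      calc ν' j * d ^ (N - 1) = ν' j * d ^ (N - 1) * 1 := (mul_one _).symm
        _ ≤ ν' j * d ^ (N - 1) * (fac * Pi) :=
            mul_le_mul_of_nonneg_left hPif (mul_nonneg (hν'0 j).le (pow_nonneg hd0.le _))
        _ = fac * (ν' j * d ^ (N - 1) * Pi) := by ring
        _ ≤ fac * (D₂ * κ) := mul_le_mul_of_nonneg_left h3 hfac0.le
    rw [hC₃, div_mul_eq_mul_div, le_div_iff₀ (pow_pos hd0 _)]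
    calc ν' j * d ^ (N - 1) ≤ fac * (D₂ * κ) := h5
      _ = D₂ * fac * κ := by ring
  -- the number mu
  set μ : ℝ := D * g ^ (-(1 / (N : ℝ))) with hμ
  have hμ0 : 0 < μ := mul_pos hD0 (Real.rpow_pos_of_pos hg0 _)
  have hμN : μ ^ N = D ^ N / g := by
    rw [hμ, mul_pow, ← Real.rpow_natCast (g ^ (-(1 / (N : ℝ)))) N, ← Real.rpow_mul hg0.le]
    have : -(1 / (N : ℝ)) * (N : ℝ) = -1 := by field_simp
    rw [this, Real.rpow_neg_one]
    rfl
  have hCκ : C₃ * κ ≤ μ := by
    refine le_of_pow_le_pow_left₀ (n := N) (by omega) hμ0.le ?_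
    rw [hμN, mul_pow, le_div_iff₀ hg0]
    calc C₃ ^ N * κ ^ N * g ≤ C₃ ^ N * κ ^ N * gr :=
          mul_le_mul_of_nonneg_left hgr (mul_pos (pow_pos hC₃0 N) (pow_pos hκ0 N)).le
      _ = C₃ ^ N * Pi := by rw [mul_assoc, hrel']
      _ ≤ C₃ ^ N * D₂ := mul_le_mul_of_nonneg_left hPiD (pow_pos hC₃0 N).le
      _ ≤ D ^ N := hDN
  have hin : ∀ y ∈ Sm B w' μ, y ∈ V := by
    rintro y ⟨hyi, hy⟩
    by_contra hyV
    have h1 : Nw B w' y ≤ P * N * μ := by
      rw [hP]
      exact Nw_le_of_lf B w' hw'.1 y μ hy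
    have h2 : d * (κ * gr) ≤ P * N * μ := (hlowb y hyi hyV).trans h1
    have h3 : (d * (κ * gr)) ^ N ≤ (P * N * μ) ^ N := pow_le_pow_left₀ (by positivity) h2 N
    have h4 : (d * (κ * gr)) ^ N = d ^ N * (Pi * gr ^ (N - 1)) := by
      obtain ⟨k, hk⟩ : ∃ k, N = k + 1 := ⟨N - 1, by omega⟩
      rw [← hrel', hk]
      have e1 : k + 1 - 1 = k := by omega
      rw [e1, mul_pow, mul_pow]
      ring
    have h5 : g ≤ gr ^ (N - 1) := hgr.trans (le_self_pow₀ hgr1 (by omega))
    have h6 : d ^ N * g ≤ fac * ((P * N * D) ^ N / g) := by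
      calc d ^ N * g = d ^ N * (1 * g) := by ring
        _ ≤ d ^ N * (fac * Pi * gr ^ (N - 1)) := by
            refine mul_le_mul_of_nonneg_left ?_ (by positivity)
            exact mul_le_mul hPif h5 hg0.le (by positivity)
        _ = fac * (d ^ N * (Pi * gr ^ (N - 1))) := by ring
        _ = fac * (d * (κ * gr)) ^ N := by rw [h4]
        _ ≤ fac * (P * N * μ) ^ N := mul_le_mul_of_nonneg_left h3 hfac0.le
        _ = fac * ((P * N * D) ^ N / g) := by
            rw [mul_pow, hμN, mul_pow (P * N) D]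
            ring
    have h7 : g * g ≤ fac * (P * N * D / d) ^ N := by
      rw [div_pow, ← mul_div_assoc, le_div_iff₀ (pow_pos hd0 _)]
      rw [← mul_div_assoc, le_div_iff₀ hg0] at h6
      calc g * g * d ^ N = d ^ N * g * g := by ring
        _ ≤ fac * (P * N * D) ^ N := h6
    have h8 : g ≤ g * g := le_mul_of_one_le_left hg0.le hg1
    exact absurd (hg.trans (h8.trans h7)) (not_le.2 (lt_one_add _))
  have hsub : Submodule.span L (Sm B w' μ) = V := by
    refine Submodule.eq_of_le_of_finrank_le ?_ ?_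
    · rw [Submodule.span_le]
      exact hin
    · rw [hVrank]
      have h1 : Submodule.span L (Y' '' {c | c < b}) ≤ Submodule.span L (Sm B w' μ) := by
        refine Submodule.span_mono ?_
        rintro _ ⟨c, hc, rfl⟩
        refine ⟨hY'.int c, fun v i => ?_⟩
        refine (lf_le_Nw B w' hw'.1 _ v i).trans ?_
        exact mul_le_mul_of_nonneg_right ((hup c (ne_of_lt hc)).trans hCκ) (hw'.1 v i).le
      have h2 := Submodule.finrank_mono h1
      rwa [finrank_below Y' hY'.li b] at h2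
  refine ⟨w', hw', ?_, hsub.symm⟩
  intro U hU v i
  have hU' : ∀ j, ν j ≤ U := hU
  have hU0 : 0 < U := lt_of_lt_of_le (hν0 b) (hU' b)
  have hκU : κ ≤ U := by
    refine le_of_pow_le_pow_left₀ (n := N) (by omega) hU0.le ?_
    rw [hκN]
    calc ∏ j, ν (min j a) ≤ ∏ _j : Fin N, U :=
          Finset.prod_le_prod (fun j _ => (hν0 _).le) fun j _ => hU' _
      _ = U ^ N := by rw [Finset.prod_const, Finset.card_univ, Fintype.card_fin]
  have hνl : ∀ j, 1 ≤ fac * U ^ (N - 1) * ν j := by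
    intro j
    have h1 : Pi ≤ U ^ (N - 1) * ν j := by
      rw [hPi, ← Finset.mul_prod_erase Finset.univ ν (Finset.mem_univ j), mul_comm]
      refine mul_le_mul_of_nonneg_right ?_ (hν0 j).le
      have hcard : (Finset.univ.erase j).card = N - 1 := by
        rw [Finset.card_erase_of_mem (Finset.mem_univ j), Finset.card_univ, Fintype.card_fin]
      rw [← hcard, ← Finset.prod_const]
      exact Finset.prod_le_prod (fun i _ => (hν0 i).le) fun i _ => hU' i
    calc 1 ≤ fac * Pi := hPif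
      _ ≤ fac * (U ^ (N - 1) * ν j) := mul_le_mul_of_nonneg_left h1 hfac0.le
      _ = fac * U ^ (N - 1) * ν j := by ring
  have hκl : 1 ≤ fac * U ^ (N - 1) * κ := by
    have hlpos : 0 < fac * U ^ (N - 1) := by positivity
    refine le_of_pow_le_pow_left₀ (n := N) (by omega) (by positivity) ?_
    rw [one_pow, mul_pow, hκN]
    have : (fac * U ^ (N - 1)) ^ N = ∏ _j : Fin N, (fac * U ^ (N - 1)) := by
      rw [Finset.prod_const, Finset.card_univ, Fintype.card_fin]
    rw [this, ← Finset.prod_mul_distrib]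
    calc (1 : ℝ) = ∏ _j : Fin N, (1 : ℝ) := by simp
      _ ≤ ∏ j, fac * U ^ (N - 1) * ν (min j a) :=
        Finset.prod_le_prod (fun _ _ => zero_le_one) fun j _ => hνl _
  have hUN : U ^ N = U ^ (N - 1) * U := by
    obtain ⟨k, hk⟩ : ∃ k, N = k + 1 := ⟨N - 1, by omega⟩
    rw [hk]
    have e1 : k + 1 - 1 = k := by omega
    rw [e1, pow_succ]
  set j₁ := min (π v i) a with hj₁
  have hρ1 : 1 ≤ ρ (π v i) * (fac * U ^ N) := by
    simp only [hρ]
    rw [div_mul_eq_mul_div, le_div_iff₀ (hν0 _), one_mul, hUN]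
    calc ν (min (π v i) a) ≤ U := hU' _
      _ = 1 * U := (one_mul U).symm
      _ ≤ fac * U ^ (N - 1) * κ * U := mul_le_mul_of_nonneg_right hκl hU0.le
      _ = κ * (fac * (U ^ (N - 1) * U)) := by ring
  have hρ2 : ρ (π v i) ≤ fac * U ^ N := by
    simp only [hρ]
    rw [div_le_iff₀ (hν0 _), hUN]
    calc κ ≤ U := hκU
      _ = 1 * U := (one_mul U).symm
      _ ≤ fac * U ^ (N - 1) * ν (min (π v i) a) * U :=
          mul_le_mul_of_nonneg_right (hνl _) hU0.le
      _ = fac * (U ^ (N - 1) * U) * ν (min (π v i) a) := by ring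
  constructor
  · simp only [hw'def]
    rw [div_le_iff₀ (hρ0 _)]
    calc w v i = w v i * 1 := (mul_one _).symm
      _ ≤ w v i * (ρ (π v i) * (fac * U ^ N)) :=
          mul_le_mul_of_nonneg_left hρ1 (hw.1 v i).le
      _ = w v i * (fac * U ^ N) * ρ (π v i) := by ring
  · simp only [hw'def]
    rw [div_mul_eq_mul_div, le_div_iff₀ (hρ0 _)]
    exact mul_le_mul_of_nonneg_left hρ2 (hw.1 v i).le

end Pool.Agent.H21.UE.RedAux
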