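import Mathlib
import Pool.Agent.H21.UE.Defs
import Pool.Agent.H21.UE.M1
import Pool.Agent.H21.UE.MII
import Pool.Agent.H77.UE.Gap

/-!
# Module RED: reduction of a gap between two consecutive minima to the penultimate minimum
-/

open MvPolynomial NumberField

namespace Pool.Agent.H21.UE.RedAux

universe u

theorem cmp_map {n p : ℕ} {R S : Type*} [CommRing R] [CommRing S] (f : R →+* S)
    (A : Matrix (Fin n) (Fin n) R) : (cmp p A).map f = cmp p (A.map f) := by
  ext s t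
  simp only [Matrix.map_apply, cmp]
  rw [RingHom.map_det]
  rfl

theorem cmp_transpose {n p : ℕ} {R : Type*} [CommRing R] (A : Matrix (Fin n) (Fin n) R) :
    cmp p A.transpose = (cmp p A).transpose := by
  ext s t
  simp only [Matrix.transpose_apply, cmp]
  rw [← Matrix.det_transpose]
  rfl

theorem cmp_det_ne_zero (h : T_EXT.{u}) {n p : ℕ} {K : Type u} [Field K]
    (A : Matrix (Fin n) (Fin n) K) (hA : A.det ≠ 0) : (cmp p A).det ≠ 0 := by
  have h1 : cmp p A * cmp p A⁻¹ = 1 := by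
    rw [← h.1, Matrix.mul_nonsing_inv _ (isUnit_iff_ne_zero.2 hA), h.2.1]
  intro h0
  have h2 := congrArg Matrix.det h1
  rw [Matrix.det_mul, h0, zero_mul, Matrix.det_one] at h2
  exact zero_ne_one h2

theorem cmp_int_det_ne_zero (h : T_EXT.{u}) (K : Type u) [Field K] [CharZero K] {n p : ℕ}
    (A : Matrix (Fin n) (Fin n) ℤ) (hA : A.det ≠ 0) : (cmp p A).det ≠ 0 := by
  have h1 : (A.map (Int.castRingHom K)).det ≠ 0 := by
    have h2 := RingHom.map_det (Int.castRingHom K) A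
    have h3 : (A.map (Int.castRingHom K)).det = (A.det : K) := h2.symm
    rw [h3]
    exact_mod_cast hA
  have h4 := cmp_det_ne_zero h (p := p) _ h1
  rw [← cmp_map] at h4
  intro h0
  apply h4
  have h5 := RingHom.map_det (Int.castRingHom K) (cmp p A)
  rw [h0, map_zero] at h5
  exact h5.symm

theorem prod_orderEmb {n p : ℕ} (s : Sub n p) (f : Fin n → ℝ) :
    ∏ a : Fin p, f (s.1.orderEmbOfFin s.2 a) = ∏ a ∈ s.1, f a := by
  conv_rhs => rw [← Finset.map_orderEmbOfFin_univ s.1 s.2]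
  rw [Finset.prod_map]
  rfl

theorem lf_cmp (h : T_EXT.{u}) {L : Type u} [Field L] [NumberField L] {n p : ℕ}
    (B : InfinitePlace L → Matrix (Fin n) (Fin n) ℤ) (v : InfinitePlace L)
    (X : Fin n → Fin n → L) (s t : Sub n p) :
    lf (fun v => cmp p (B v)) v t (cmp p (Matrix.of X) s) =
      (Matrix.of fun a j => lf B v (t.1.orderEmbOfFin t.2 j)
        (X (s.1.orderEmbOfFin s.2 a))).det := by
  set M : Matrix (Fin n) (Fin n) L :=
    Matrix.of X * ((B v).map (Int.castRingHom L)).transpose with hM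
  have h1 : cmp p M = cmp p (Matrix.of X) * (cmp p ((B v).map (Int.castRingHom L))).transpose := by
    rw [hM, h.1, cmp_transpose]
  have h2 : v.embedding (cmp p M s t) =
      lf (fun v => cmp p (B v)) v t (cmp p (Matrix.of X) s) := by
    rw [h1, Matrix.mul_apply, map_sum, lf]
    refine Finset.sum_congr rfl fun j _ => ?_
    rw [map_mul, Matrix.transpose_apply, ← cmp_map, Matrix.map_apply, mul_comm]
    simp
  have h3 : v.embedding (cmp p M s t) =
      (Matrix.of fun a j => lf B v (t.1.orderEmbOfFin t.2 j)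
        (X (s.1.orderEmbOfFin s.2 a))).det := by
    rw [cmp, RingHom.map_det]
    congr 1
    ext a j
    simp only [RingHom.mapMatrix_apply, Matrix.map_apply, Matrix.submatrix_apply, hM,
      Matrix.mul_apply, Matrix.of_apply, Matrix.transpose_apply, lf, map_sum, map_mul]
    refine Finset.sum_congr rfl fun l _ => ?_
    simp [mul_comm]
  rw [← h2, h3]

theorem lf_cmp_le (h : T_EXT.{u}) {L : Type u} [Field L] [NumberField L] {n p : ℕ}
    (B : InfinitePlace L → Matrix (Fin n) (Fin n) ℤ) (w : InfinitePlace L → Fin n → ℝ)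
    (X : Fin n → Fin n → L) (lam : Fin n → ℝ)
    (hle : ∀ a v i, ‖lf B v i (X a)‖ ≤ lam a * w v i) (v : InfinitePlace L) (s t : Sub n p) :
    ‖lf (fun v => cmp p (B v)) v t (cmp p (Matrix.of X) s)‖ ≤
      (p.factorial * ∏ a ∈ s.1, lam a) * ∏ i ∈ t.1, w v i := by
  rw [lf_cmp h, Matrix.det_apply]
  refine (norm_sum_le _ _).trans ?_
  have h3 : ∀ σ ∈ (Finset.univ : Finset (Equiv.Perm (Fin p))),
      ‖Equiv.Perm.sign σ • ∏ a, (Matrix.of fun a j => lf B v (t.1.orderEmbOfFin t.2 j)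
        (X (s.1.orderEmbOfFin s.2 a))) (σ a) a‖ ≤
          (∏ a ∈ s.1, lam a) * ∏ i ∈ t.1, w v i := by
    intro σ _
    have h4 : ‖Equiv.Perm.sign σ • ∏ a, (Matrix.of fun a j => lf B v (t.1.orderEmbOfFin t.2 j)
        (X (s.1.orderEmbOfFin s.2 a))) (σ a) a‖ =
        ∏ a, ‖lf B v (t.1.orderEmbOfFin t.2 a) (X (s.1.orderEmbOfFin s.2 (σ a)))‖ := by
      rcases Int.units_eq_one_or (Equiv.Perm.sign σ) with h | h
      · rw [h, one_smul, norm_prod]; rfl
      · rw [h, Units.neg_smul, one_smul, norm_neg, norm_prod]; rfl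
    rw [h4]
    calc ∏ a, ‖lf B v (t.1.orderEmbOfFin t.2 a) (X (s.1.orderEmbOfFin s.2 (σ a)))‖
        ≤ ∏ a, (lam (s.1.orderEmbOfFin s.2 (σ a)) * w v (t.1.orderEmbOfFin t.2 a)) :=
          Finset.prod_le_prod (fun a _ => norm_nonneg _) fun a _ => hle _ v _
      _ = (∏ a ∈ s.1, lam a) * ∏ i ∈ t.1, w v i := by
          rw [Finset.prod_mul_distrib,
            Equiv.prod_comp σ (fun a => lam (s.1.orderEmbOfFin s.2 a)), prod_orderEmb s lam,
            prod_orderEmb t (w v)]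
  refine (Finset.sum_le_card_nsmul _ _ _ h3).trans ?_
  rw [Finset.card_univ, Fintype.card_perm, Fintype.card_fin, nsmul_eq_mul, mul_assoc]

theorem prod_sub {n p : ℕ} (i₀ : Fin n) (f : Fin n → ℝ) :
    ∏ s : Sub n p, ∏ i ∈ s.1, f i =
      (∏ i, f i) ^ (Finset.univ.filter fun s : Sub n p => i₀ ∈ s.1).card := by
  classical
  have h1 : ∀ s : Sub n p, ∏ i ∈ s.1, f i = ∏ i, if i ∈ s.1 then f i else 1 := by
    intro s
    rw [Finset.prod_ite_mem, Finset.univ_inter]
  rw [Finset.prod_congr rfl fun s _ => h1 s, Finset.prod_comm, ← Finset.prod_pow]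
  refine Finset.prod_congr rfl fun i _ => ?_
  rw [Finset.prod_ite, Finset.prod_const, Finset.prod_const_one, mul_one]
  congr 1
  let σ : Equiv.Perm (Fin n) := Equiv.swap i i₀
  let e : Sub n p ≃ Sub n p :=
    { toFun := fun s => ⟨s.1.map σ.toEmbedding, by rw [Finset.card_map, s.2]⟩
      invFun := fun s => ⟨s.1.map σ.symm.toEmbedding, by rw [Finset.card_map, s.2]⟩
      left_inv := fun s => by
        apply Subtype.ext
        ext a
        simp
      right_inv := fun s => by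
        apply Subtype.ext
        ext a
        simp }
  refine Finset.card_equiv e fun s => ?_
  simp [e, σ]

theorem NW_sub {L : Type u} [Field L] [NumberField L] {n p : ℕ} (i₀ : Fin n)
    (w : InfinitePlace L → Fin n → ℝ) (hw : NW w) :
    NW (fun v (s : Sub n p) => ∏ i ∈ s.1, w v i) := by
  refine ⟨fun v s => Finset.prod_pos fun i _ => hw.1 v i, ?_⟩
  have h1 : ∀ v : InfinitePlace L, ∏ s : Sub n p, (∏ i ∈ s.1, w v i) ^ v.mult =
      (∏ i, w v i ^ v.mult) ^ (Finset.univ.filter fun s : Sub n p => i₀ ∈ s.1).card := by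
    intro v
    rw [Finset.prod_pow, prod_sub i₀, ← pow_mul, Finset.prod_pow, ← pow_mul, mul_comm]
  rw [Finset.prod_congr rfl fun v _ => h1 v, Finset.prod_pow, hw.2, one_pow]

/-- comparison of the products over two sets of the same size -/
theorem prod_gap {n p k : ℕ} (lam : Fin n → ℝ) (h0 : ∀ a, 0 < lam a) (hmono : Monotone lam)
    (s₀ : Sub n p) (hs₀ : ∀ a, a ∈ s₀.1 ↔ k ≤ (a : ℕ)) (s : Sub n p) (hs : s ≠ s₀) (G : ℝ)
    (hG : 1 ≤ G) (ka kb : Fin n) (hka : (ka : ℕ) + 1 = k) (hkb : (kb : ℕ) = k)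
    (hgap : G * lam ka ≤ lam kb) :
    G * ∏ a ∈ s.1, lam a ≤ ∏ a ∈ s₀.1, lam a := by
  classical
  have hcard : (s.1 \ s₀.1).card = (s₀.1 \ s.1).card := by
    have h1 := Finset.card_sdiff_add_card_inter s.1 s₀.1
    have h2 := Finset.card_sdiff_add_card_inter s₀.1 s.1
    rw [Finset.inter_comm] at h2
    have h3 := s.2
    have h4 := s₀.2
    omega
  have hpos : 0 < (s.1 \ s₀.1).card := by
    rw [Finset.card_pos]
    by_contra hcon
    rw [Finset.not_nonempty_iff_eq_empty, Finset.sdiff_eq_empty_iff_subset] at hcon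
    exact hs (Subtype.ext (Finset.eq_of_subset_of_card_le hcon (by rw [s.2, s₀.2])))
  have e1 : ∏ a ∈ s.1, lam a = (∏ a ∈ s.1 \ s₀.1, lam a) * ∏ a ∈ s.1 ∩ s₀.1, lam a := by
    rw [← Finset.prod_union (Finset.disjoint_sdiff_inter _ _), Finset.sdiff_union_inter]
  have e2 : ∏ a ∈ s₀.1, lam a = (∏ a ∈ s₀.1 \ s.1, lam a) * ∏ a ∈ s.1 ∩ s₀.1, lam a := by
    rw [Finset.inter_comm, ← Finset.prod_union (Finset.disjoint_sdiff_inter _ _),
      Finset.sdiff_union_inter]
  have hI : 0 < ∏ a ∈ s.1 ∩ s₀.1, lam a := Finset.prod_pos fun a _ => h0 a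
  rw [e1, e2, ← mul_assoc]
  refine mul_le_mul_of_nonneg_right ?_ hI.le
  have h1 : ∏ a ∈ s.1 \ s₀.1, lam a ≤ lam ka ^ (s.1 \ s₀.1).card := by
    rw [← Finset.prod_const]
    refine Finset.prod_le_prod (fun a _ => (h0 a).le) fun a ha => hmono ?_
    rw [Finset.mem_sdiff, hs₀, not_le] at ha
    rw [Fin.le_def]
    omega
  have h2 : lam kb ^ (s₀.1 \ s.1).card ≤ ∏ a ∈ s₀.1 \ s.1, lam a := by
    rw [← Finset.prod_const]
    refine Finset.prod_le_prod (fun a _ => (h0 _).le) fun a ha => hmono ?_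
    rw [Finset.mem_sdiff, hs₀] at ha
    rw [Fin.le_def]
    omega
  calc G * ∏ a ∈ s.1 \ s₀.1, lam a ≤ G ^ (s.1 \ s₀.1).card * lam ka ^ (s.1 \ s₀.1).card :=
        mul_le_mul (le_self_pow₀ hG hpos.ne') h1
          (Finset.prod_nonneg fun a _ => (h0 a).le) (pow_nonneg (by linarith) _)
    _ = (G * lam ka) ^ (s.1 \ s₀.1).card := (mul_pow _ _ _).symm
    _ ≤ lam kb ^ (s.1 \ s₀.1).card :=
        pow_le_pow_left₀ (mul_nonneg (by linarith) (h0 _).le) hgap _
    _ ≤ ∏ a ∈ s₀.1 \ s.1, lam a := by rw [hcard]; exact h2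

/-- an integral vector outside the hyperplane of a system of vectors is long -/
theorem outside_long (hM1 : T_M1.{u}) {L : Type u} [Field L] [NumberField L] {ι : Type}
    [Fintype ι] [DecidableEq ι] (B : InfinitePlace L → Matrix ι ι ℤ)
    (w : InfinitePlace L → ι → ℝ) (hB : ∀ v, (B v).det ≠ 0) (hw : NW w) (Z : ι → ι → L)
    (hZ : LinearIndependent L Z) (hint : ∀ s i, IsIntegral ℤ (Z s i)) (s₀ : ι) (m : ι → ℝ)
    (hm : ∀ s, 0 < m s) (hle : ∀ s, Nw B w (Z s) ≤ m s) (y : ι → L)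
    (hy : ∀ i, IsIntegral ℤ (y i))
    (hyV : y ∉ Submodule.span L {y | ∃ s, s ≠ s₀ ∧ y = Z s}) :
    m s₀ ≤ (Fintype.card ι).factorial * (∏ s, m s) * Nw B w y := by
  set V := Submodule.span L {y | ∃ s, s ≠ s₀ ∧ y = Z s} with hV
  have hVrank : Module.finrank L V + 1 = Fintype.card ι := by
    have h1 : {y | ∃ s, s ≠ s₀ ∧ y = Z s} = Set.range fun s : {s // s ≠ s₀} => Z s := by
      ext y
      constructor
      · rintro ⟨s, hs, rfl⟩
        exact ⟨⟨s, hs⟩, rfl⟩
      · rintro ⟨⟨s, hs⟩, rfl⟩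
        exact ⟨s, hs, rfl⟩
    have h2 : LinearIndependent L fun s : {s // s ≠ s₀} => Z s :=
      hZ.comp _ Subtype.val_injective
    rw [hV, h1, finrank_span_eq_card h2, Fintype.card_subtype_compl, Fintype.card_subtype_eq]
    have : 0 < Fintype.card ι := Fintype.card_pos_iff.2 ⟨s₀⟩
    omega
  set Z' : ι → ι → L := fun s => if s = s₀ then y else Z s with hZ'
  have hsp : ⊤ ≤ Submodule.span L (Set.range Z') := by
    have h1 : V ≤ Submodule.span L (Set.range Z') := by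
      refine Submodule.span_mono ?_
      rintro _ ⟨s, hs, rfl⟩
      exact ⟨s, by simp [hZ', hs]⟩
    have h2 : y ∈ Submodule.span L (Set.range Z') :=
      Submodule.subset_span ⟨s₀, by simp [hZ']⟩
    have h3 : V < Submodule.span L (Set.range Z') := by
      refine lt_of_le_of_ne h1 fun h => hyV ?_
      rw [h]
      exact h2
    have h4 := Submodule.finrank_lt_finrank_of_lt h3
    refine (Submodule.eq_top_of_finrank_eq ?_).ge
    have h5 := Submodule.finrank_le (Submodule.span L (Set.range Z'))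
    rw [Module.finrank_fintype_fun_eq_card] at h5 ⊢
    omega
  have hli : LinearIndependent L Z' :=
    linearIndependent_of_top_le_span_of_card_eq_finrank hsp
      (by rw [Module.finrank_fintype_fun_eq_card])
  have hbd : ∀ s, Nw B w (Z' s) ≤ if s = s₀ then Nw B w y else m s := by
    intro s
    by_cases hs : s = s₀
    · simp [hZ', hs]
    · simpa [hZ', hs] using hle s
  have h1 := hM1 L ι B w Z' (fun s => if s = s₀ then Nw B w y else m s) hB hw
    (fun s i => by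
      by_cases hs : s = s₀
      · simpa [hZ', hs] using hy i
      · simpa [hZ', hs] using hint s i) hli
    (fun s => (Nw_nonneg B w hw.1 _).trans (hbd s))
    (fun s v i => (lf_le_Nw B w hw.1 _ v i).trans
      (mul_le_mul_of_nonneg_right (hbd s) (hw.1 v i).le))
  rw [← Finset.mul_prod_erase Finset.univ _ (Finset.mem_univ s₀), if_pos rfl] at h1
  rw [Finset.prod_congr rfl fun s hs => if_neg (Finset.ne_of_mem_erase hs)] at h1
  rw [← Finset.mul_prod_erase Finset.univ m (Finset.mem_univ s₀)]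
  calc m s₀ = m s₀ * 1 := (mul_one _).symm
    _ ≤ m s₀ * ((Fintype.card ι).factorial *
          (Nw B w y * ∏ s ∈ Finset.univ.erase s₀, m s)) :=
        mul_le_mul_of_nonneg_left h1 (hm s₀).le
    _ = (Fintype.card ι).factorial * (m s₀ * ∏ s ∈ Finset.univ.erase s₀, m s) *
          Nw B w y := by ring

/-- the upper bound for the minima, by the standard basis -/
theorem min_le {L : Type u} [Field L] [NumberField L] {ι : Type}
    [Fintype ι] [DecidableEq ι] (B : InfinitePlace L → Matrix ι ι ℤ)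
    (w : InfinitePlace L → ι → ℝ) (hw : ∀ v i, 0 < w v i)
    {Y : Fin (Fintype.card ι) → ι → L} (hY : MinSys B w Y) (T : ℝ) (hT : ∀ v i, 1 ≤ T * w v i)
    (j : Fin (Fintype.card ι)) :
    Nw B w (Y j) ≤ Fintype.card (InfinitePlace L) * Fintype.card ι *
      ((∑ v, ∑ s, ∑ t, |((B v s t : ℤ) : ℝ)|) * T) := by
  obtain ⟨t, ht⟩ := exists_ge hY j (κ := ι) j.2 (fun t => Pi.single t 1)
    (fun t i => by
      by_cases h : i = t
      · subst h
        rw [Pi.single_eq_same]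
        exact isIntegral_one
      · rw [Pi.single_eq_of_ne h]
        exact isIntegral_zero)
    (by
      have h1 := (Pi.basisFun L ι).linearIndependent
      have h2 : (⇑(Pi.basisFun L ι) : ι → ι → L) = fun t => Pi.single t 1 := by
        ext t
        rw [Pi.basisFun_apply]
      rwa [h2] at h1)
  refine ht.trans (Nw_le_of_lf B w hw _ _ fun v s => ?_)
  have h1 : lf B v s (Pi.single t 1) = ((B v s t : ℤ) : ℂ) := by
    rw [lf, Finset.sum_eq_single t]
    · simp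
    · intro b _ hb
      rw [Pi.single_eq_of_ne hb]
      simp
    · intro h
      exact absurd (Finset.mem_univ t) h
  have h2 : ‖lf B v s (Pi.single t 1)‖ = |((B v s t : ℤ) : ℝ)| := by
    rw [h1, Complex.norm_intCast]
  rw [h2]
  have h3 : |((B v s t : ℤ) : ℝ)| ≤ ∑ v, ∑ s, ∑ t, |((B v s t : ℤ) : ℝ)| := by
    have e1 : |((B v s t : ℤ) : ℝ)| ≤ ∑ t, |((B v s t : ℤ) : ℝ)| :=
      Finset.single_le_sum (f := fun t => |((B v s t : ℤ) : ℝ)|) (fun _ _ => abs_nonneg _)
        (Finset.mem_univ t)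
    have e2 : ∑ t, |((B v s t : ℤ) : ℝ)| ≤ ∑ s, ∑ t, |((B v s t : ℤ) : ℝ)| :=
      Finset.single_le_sum (f := fun s => ∑ t, |((B v s t : ℤ) : ℝ)|)
        (fun _ _ => Finset.sum_nonneg fun _ _ => abs_nonneg _) (Finset.mem_univ s)
    have e3 : ∑ s, ∑ t, |((B v s t : ℤ) : ℝ)| ≤ ∑ v, ∑ s, ∑ t, |((B v s t : ℤ) : ℝ)| :=
      Finset.single_le_sum (f := fun v => ∑ s, ∑ t, |((B v s t : ℤ) : ℝ)|)
        (fun _ _ => Finset.sum_nonneg fun _ _ => Finset.sum_nonneg fun _ _ => abs_nonneg _)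
        (Finset.mem_univ v)
    exact e1.trans (e2.trans e3)
  calc |((B v s t : ℤ) : ℝ)| ≤ (∑ v, ∑ s, ∑ t, |((B v s t : ℤ) : ℝ)|) * 1 := by rwa [mul_one]
    _ ≤ (∑ v, ∑ s, ∑ t, |((B v s t : ℤ) : ℝ)|) * (T * w v s) :=
        mul_le_mul_of_nonneg_left (hT v s) ((abs_nonneg _).trans h3)
    _ = (∑ v, ∑ s, ∑ t, |((B v s t : ℤ) : ℝ)|) * T * w v s := by ring

/-- a real number is at most a power of `Q ≥ 2` -/
theorem le_rpow (W Q : ℝ) (hQ : 2 ≤ Q) : W ≤ Q ^ ((⌈W⌉₊ : ℕ) : ℝ) := by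
  rw [Real.rpow_natCast]
  calc W ≤ (⌈W⌉₊ : ℕ) := Nat.le_ceil W
    _ ≤ (2 : ℝ) ^ ⌈W⌉₊ := by exact_mod_cast (Nat.lt_two_pow_self (n := ⌈W⌉₊)).le
    _ ≤ Q ^ ⌈W⌉₊ := pow_le_pow_left₀ (by norm_num) hQ _

end Pool.Agent.H21.UE.RedAux

namespace Pool.Agent.H21.UE

universe u

open RedAux in
theorem RED (hEXT : T_EXT.{u}) (hMIN : T_MIN.{u}) (hMII : T_MII.{u}) (hDAV : T_DAV.{u})
    (hM1 : T_M1.{u}) : T_RED.{u} := by
  intro L _ _ n k hk1 hkn B hB E hE
  have hn : 0 < n := by omega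
  have : Nonempty (Fin n) := ⟨⟨0, hn⟩⟩
  -- the set of the last indices
  let s₀ : Sub n (n - k) := ⟨Finset.Ici ⟨k, hkn⟩, by rw [Fin.card_Ici]⟩
  have hs₀ : ∀ a, a ∈ s₀.1 ↔ k ≤ (a : ℕ) := by
    intro a
    simp [s₀, Fin.le_def]
  let s₁ : Sub n (n - k) := ⟨Finset.Iio ⟨n - k, by omega⟩, by rw [Fin.card_Iio]⟩
  have hs₁ : s₁ ≠ s₀ := by
    intro h
    have h1 : (⟨0, hn⟩ : Fin n) ∈ s₁.1 := by
      simp only [s₁, Finset.mem_Iio, Fin.lt_def]
      omega
    rw [h, hs₀] at h1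
    simp only at h1
    omega
  set B₂ : InfinitePlace L → Matrix (Sub n (n - k)) (Sub n (n - k)) ℤ :=
    fun v => cmp (n - k) (B v) with hB₂def
  have hB₂ : ∀ v, (B₂ v).det ≠ 0 := fun v => cmp_int_det_ne_zero hEXT L (B v) (hB v)
  have hN : 2 ≤ Fintype.card (Sub n (n - k)) := by
    have : 1 < Fintype.card (Sub n (n - k)) := Fintype.one_lt_card_iff.2 ⟨s₁, s₀, hs₁⟩
    omega
  obtain ⟨D₁, G₁, hD₁0, hG₁1, hgapmain⟩ := gap (ι := Sub n (n - k)) hDAV hMII hM1 hMIN hN B₂ hB₂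
  obtain ⟨DB, hDB0, hDB⟩ := hMII L (Fin n) B hB
  obtain ⟨F, hF⟩ := hEXT.2.2 n (n - k) (by omega) L s₀
  set N := Fintype.card (Sub n (n - k)) with hNdef
  set P : ℝ := ((Fintype.card (InfinitePlace L) : ℕ) : ℝ) with hP
  have hP0 : 0 < P := by
    rw [hP]
    exact_mod_cast Fintype.card_pos (α := InfinitePlace L)
  have hN0 : (0 : ℝ) < N := by
    have : 0 < N := by omega
    exact_mod_cast this
  set C : ℝ := P * N * ((n - k).factorial : ℝ) with hC
  have hC0 : 0 < C := by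
    have : (0 : ℝ) < ((n - k).factorial : ℝ) := by exact_mod_cast Nat.factorial_pos _
    positivity
  set cc : ℕ := (Finset.univ.filter fun s : Sub n (n - k) => (⟨0, hn⟩ : Fin n) ∈ s.1).card
    with hcc
  set H : ℝ := (N.factorial : ℝ) * (C ^ N * DB ^ cc) with hH
  have hH0 : 0 < H := by
    have : (0 : ℝ) < (N.factorial : ℝ) := by exact_mod_cast Nat.factorial_pos _
    positivity
  set β : ℝ := ∑ v, ∑ s, ∑ t, |((B₂ v s t : ℤ) : ℝ)| with hβ
  have hβ0 : 0 ≤ β := Finset.sum_nonneg fun _ _ => Finset.sum_nonneg fun _ _ =>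
    Finset.sum_nonneg fun _ _ => abs_nonneg _
  set pE : ℝ := ((n - k : ℕ) : ℝ) * E with hpE
  have hpE0 : 0 ≤ pE := mul_nonneg (Nat.cast_nonneg _) hE
  set W : ℝ := (N.factorial : ℝ) * (P * N * β) ^ N with hW
  refine ⟨pE + pE * N + (⌈W⌉₊ : ℕ), D₁ * H ^ (1 / (N : ℝ)), 1 / (N : ℝ), 1 + H * G₁, F,
    mul_pos hD₁0 (Real.rpow_pos_of_pos hH0 _), by positivity, by
      have : 0 < H * G₁ := mul_pos hH0 (by linarith)
      linarith, ?_⟩
  intro w x Q hQ hw hwE hx a b ha hb G hG hgap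
  have hQ0 : 0 < Q := by linarith
  have hQ1 : 1 ≤ Q := by linarith
  have hHG : 0 < H * G₁ := mul_pos hH0 (by linarith)
  have hG1 : 1 ≤ G := by linarith
  have hG0 : 0 < G := by linarith
  have hHG' : H < G := by
    have : H ≤ H * G₁ := le_mul_of_one_le_right hH0.le hG₁1
    linarith
  have hG₁' : G₁ ≤ G / H := by
    rw [le_div_iff₀ hH0]
    linarith
  -- the vectors indexed by `Fin n`
  let e : Fin n ≃ Fin (Fintype.card (Fin n)) := finCongr (Fintype.card_fin n).symm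
  have hev : ∀ i, ((e i : Fin (Fintype.card (Fin n))) : ℕ) = i := fun i => rfl
  set X : Fin n → Fin n → L := fun i => x (e i) with hX
  have hXli : LinearIndependent L X := hx.li.comp _ e.injective
  set lam : Fin n → ℝ := fun i => Nw B w (X i) with hlam
  have hlam0 : ∀ i, 0 < lam i := fun i => Nw_pos B w hB hw.1 _ (hXli.ne_zero i)
  have hlammono : Monotone lam := by
    intro i j hij
    refine hx.mono ?_
    rw [Fin.le_def, hev, hev]
    exact hij
  set Z : Sub n (n - k) → Sub n (n - k) → L := cmp (n - k) (Matrix.of X) with hZ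
  have hdetX : (Matrix.of X).det ≠ 0 := by
    have h1 : LinearIndependent L (Matrix.of X).row := hXli
    exact (Matrix.isUnit_iff_isUnit_det _).1
      (Matrix.linearIndependent_rows_iff_isUnit.1 h1) |>.ne_zero
  have hZli : LinearIndependent L Z := by
    have h1 : (cmp (n - k) (Matrix.of X)).det ≠ 0 := cmp_det_ne_zero hEXT _ hdetX
    exact Matrix.linearIndependent_rows_iff_isUnit.2
      ((Matrix.isUnit_iff_isUnit_det _).2 h1.isUnit)
  have hZint : ∀ s i, IsIntegral ℤ (Z s i) := fun s i =>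
    IsIntegral.det fun a j => hx.int _ _
  set w₂ : InfinitePlace L → Sub n (n - k) → ℝ := fun v s => ∏ i ∈ s.1, w v i with hw₂def
  have hw₂ : NW w₂ := NW_sub ⟨0, hn⟩ w hw
  set Lam : Sub n (n - k) → ℝ := fun s => ∏ a ∈ s.1, lam a with hLam
  have hLam0 : ∀ s, 0 < Lam s := fun s => Finset.prod_pos fun a _ => hlam0 a
  have hZle : ∀ s, Nw B₂ w₂ (Z s) ≤ C * Lam s := by
    intro s
    refine (Nw_le_of_lf B₂ w₂ hw₂.1 (Z s) (((n - k).factorial : ℝ) * Lam s)
      fun v t => ?_).trans (le_of_eq ?_)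
    · exact lf_cmp_le hEXT B w X lam (fun a v i => lf_le_Nw B w hw.1 _ v i) v s t
    · rw [hC, hP, hNdef]
      ring
  have hprodLam : ∏ s, C * Lam s ≤ C ^ N * DB ^ cc := by
    rw [Finset.prod_mul_distrib, Finset.prod_const, Finset.card_univ, hLam,
      prod_sub ⟨0, hn⟩ lam]
    refine mul_le_mul_of_nonneg_left ?_ (pow_nonneg hC0.le _)
    refine pow_le_pow_left₀ (Finset.prod_nonneg fun i _ => (hlam0 i).le) ?_ _
    have h1 := hDB w hw x hx
    rwa [← Equiv.prod_comp e fun a => Nw B w (x a)] at h1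
  set V := Submodule.span L {y | ∃ s, s ≠ s₀ ∧ y = Z s} with hV
  have hout : ∀ y : Sub n (n - k) → L, (∀ i, IsIntegral ℤ (y i)) → y ∉ V →
      C * Lam s₀ ≤ H * Nw B₂ w₂ y := by
    intro y hy hyV
    refine (outside_long hM1 B₂ w₂ hB₂ hw₂ Z hZli hZint s₀ (fun s => C * Lam s)
      (fun s => mul_pos hC0 (hLam0 s)) hZle y hy hyV).trans ?_
    refine mul_le_mul_of_nonneg_right ?_ (Nw_nonneg B₂ w₂ hw₂.1 y)
    exact mul_le_mul_of_nonneg_left hprodLam (Nat.cast_nonneg _)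
  have hka : (k - 1) < n := by omega
  have hea : e ⟨k - 1, hka⟩ = a := by
    apply Fin.ext
    rw [hev]
    simp only
    omega
  have heb : e ⟨k, hkn⟩ = b := by
    apply Fin.ext
    rw [hev]
    simp only
    omega
  have hgap' : G * lam ⟨k - 1, hka⟩ ≤ lam ⟨k, hkn⟩ := by
    simp only [hlam, hX]
    rw [hea, heb]
    exact hgap
  have hGLam : ∀ s, s ≠ s₀ → G * Lam s ≤ Lam s₀ := fun s hs =>
    prod_gap lam hlam0 hlammono s₀ hs₀ s hs G hG1 ⟨k - 1, hka⟩ ⟨k, hkn⟩
      (by simp only; omega) rfl hgap'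
  -- the minimal system upstairs
  obtain ⟨Y, hY⟩ := hMIN L (Sub n (n - k)) B₂ w₂ hB₂ hw₂.1
  set a₂ : Fin N := ⟨N - 2, by omega⟩ with ha₂
  set b₂ : Fin N := ⟨N - 1, by omega⟩ with hb₂
  have hcardne : Fintype.card {s : Sub n (n - k) // s ≠ s₀} = N - 1 := by
    rw [Fintype.card_subtype_compl, Fintype.card_subtype_eq]
  have hA : G * Nw B₂ w₂ (Y a₂) ≤ C * Lam s₀ := by
    obtain ⟨⟨s, hs⟩, hle⟩ := exists_ge hY a₂ (κ := {s : Sub n (n - k) // s ≠ s₀})
      (by rw [hcardne]; simp only [ha₂]; omega) (fun s => Z s) (fun s i => hZint _ i)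
      (hZli.comp _ Subtype.val_injective)
    calc G * Nw B₂ w₂ (Y a₂) ≤ G * (C * Lam s) :=
          mul_le_mul_of_nonneg_left (hle.trans (hZle s)) hG0.le
      _ = C * (G * Lam s) := by ring
      _ ≤ C * Lam s₀ := mul_le_mul_of_nonneg_left (hGLam s hs) hC0.le
  have hVrank : Module.finrank L V + 1 = N := by
    have h1 : {y | ∃ s, s ≠ s₀ ∧ y = Z s} = Set.range fun s : {s // s ≠ s₀} => Z s := by
      ext y
      constructor
      · rintro ⟨s, hs, rfl⟩
        exact ⟨⟨s, hs⟩, rfl⟩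
      · rintro ⟨⟨s, hs⟩, rfl⟩
        exact ⟨s, hs, rfl⟩
    have h2 : LinearIndependent L fun s : {s // s ≠ s₀} => Z s :=
      hZli.comp _ Subtype.val_injective
    rw [hV, h1, finrank_span_eq_card h2, hcardne]
    omega
  have hBb : C * Lam s₀ ≤ H * Nw B₂ w₂ (Y b₂) := by
    have hex : ∃ j, Y j ∉ V := by
      by_contra hcon
      push Not at hcon
      have h1 : Submodule.span L (Set.range Y) ≤ V := by
        rw [Submodule.span_le]
        rintro _ ⟨c, rfl⟩
        exact hcon c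
      have h2 := Submodule.finrank_mono h1
      rw [finrank_span_eq_card hY.li, Fintype.card_fin] at h2
      omega
    obtain ⟨j, hj⟩ := hex
    refine (hout _ (hY.int j) hj).trans (mul_le_mul_of_nonneg_left (hY.mono ?_) hH0.le)
    rw [Fin.le_def]
    have := j.2
    simp only [hb₂]
    omega
  have hνpos : ∀ j, 0 < Nw B₂ w₂ (Y j) := fun j =>
    Nw_pos B₂ w₂ hB₂ hw₂.1 _ (hY.li.ne_zero j)
  have hVY : Submodule.span L (Y '' {c | c < b₂}) = V := by
    refine Submodule.eq_of_le_of_finrank_le ?_ ?_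
    · rw [Submodule.span_le]
      rintro _ ⟨c, hc, rfl⟩
      by_contra hcV
      have hca : c ≤ a₂ := by
        rw [Fin.le_def]
        have : (c : ℕ) < b₂ := hc
        simp only [hb₂] at this
        simp only [ha₂]
        omega
      have h1 : C * Lam s₀ ≤ H * Nw B₂ w₂ (Y a₂) :=
        (hout _ (hY.int c) hcV).trans (mul_le_mul_of_nonneg_left (hY.mono hca) hH0.le)
      have h2 : G * Nw B₂ w₂ (Y a₂) ≤ H * Nw B₂ w₂ (Y a₂) := hA.trans h1
      exact absurd (le_of_mul_le_mul_right h2 (hνpos a₂)) (not_le.2 hHG')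
    · rw [finrank_below Y hY.li b₂]
      simp only [hb₂]
      omega
  have hratio : G / H * Nw B₂ w₂ (Y a₂) ≤ Nw B₂ w₂ (Y b₂) := by
    rw [div_mul_eq_mul_div, div_le_iff₀ hH0]
    calc G * Nw B₂ w₂ (Y a₂) ≤ C * Lam s₀ := hA
      _ ≤ H * Nw B₂ w₂ (Y b₂) := hBb
      _ = Nw B₂ w₂ (Y b₂) * H := mul_comm _ _
  obtain ⟨w', hw', hw'b, hspan⟩ := hgapmain w₂ hw₂ Y hY a₂ b₂ (by simp only [ha₂]; omega)
    (by simp only [hb₂]; omega) (G / H) hG₁' hratio
  -- bounds of the weights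
  have hw₂E : ∀ v s, Q ^ (-pE) ≤ w₂ v s ∧ w₂ v s ≤ Q ^ pE := by
    intro v s
    have h1 : ∀ T : ℝ, Q ^ (((n - k : ℕ) : ℝ) * T) = ∏ _i ∈ s.1, Q ^ T := by
      intro T
      rw [Finset.prod_const, s.2, mul_comm, Real.rpow_mul hQ0.le, Real.rpow_natCast]
    constructor
    · rw [hpE, ← mul_neg, h1]
      exact Finset.prod_le_prod (fun _ _ => Real.rpow_nonneg hQ0.le _) fun i _ => (hwE v i).1
    · rw [hpE, h1]
      exact Finset.prod_le_prod (fun i _ => (hw.1 v i).le) fun i _ => (hwE v i).2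
  have hU : ∀ j, Nw B₂ w₂ (Y j) ≤ P * N * (β * Q ^ pE) :=
      fun j => min_le B₂ w₂ hw₂.1 hY (Q ^ pE) (fun v i => by
    calc (1 : ℝ) = Q ^ pE * Q ^ (-pE) := by
          rw [← Real.rpow_add hQ0, add_neg_cancel, Real.rpow_zero]
      _ ≤ Q ^ pE * w₂ v i :=
          mul_le_mul_of_nonneg_left (hw₂E v i).1 (Real.rpow_nonneg hQ0.le _)) j
  set T : ℝ := (N.factorial : ℝ) * (P * N * (β * Q ^ pE)) ^ N with hT
  have hTle : Q ^ pE * T ≤ Q ^ (pE + pE * N + (⌈W⌉₊ : ℕ)) := by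
    have h1 : T = W * Q ^ (pE * N) := by
      have e1 : P * N * (β * Q ^ pE) = P * N * β * Q ^ pE := by ring
      rw [hT, hW, Real.rpow_mul hQ0.le pE (N : ℝ), Real.rpow_natCast, e1, mul_pow (P * N * β)]
      ring
    rw [h1, Real.rpow_add hQ0, Real.rpow_add hQ0]
    calc Q ^ pE * (W * Q ^ (pE * N)) = Q ^ pE * Q ^ (pE * N) * W := by ring
      _ ≤ Q ^ pE * Q ^ (pE * N) * Q ^ ((⌈W⌉₊ : ℕ) : ℝ) :=
          mul_le_mul_of_nonneg_left (le_rpow W Q hQ)
            (mul_nonneg (Real.rpow_nonneg hQ0.le _) (Real.rpow_nonneg hQ0.le _))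
  have hT0 : 0 ≤ T := mul_nonneg (Nat.cast_nonneg _) (pow_nonneg (mul_nonneg
    (mul_nonneg hP0.le hN0.le) (mul_nonneg hβ0 (Real.rpow_nonneg hQ0.le _))) _)
  refine ⟨w', hw', ?_, V, hVrank, ?_, ?_⟩
  · intro v s
    have h1 := (hw'b _ hU v s).1
    have h2 := (hw'b _ hU v s).2
    rw [← hT] at h1 h2
    constructor
    · rw [Real.rpow_neg hQ0.le, inv_le_iff_one_le_mul₀ (Real.rpow_pos_of_pos hQ0 _)]
      calc (1 : ℝ) = Q ^ (-pE) * Q ^ pE := by
            rw [← Real.rpow_add hQ0, neg_add_cancel, Real.rpow_zero]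
        _ ≤ w₂ v s * Q ^ pE :=
            mul_le_mul_of_nonneg_right (hw₂E v s).1 (Real.rpow_nonneg hQ0.le _)
        _ ≤ w' v s * T * Q ^ pE :=
            mul_le_mul_of_nonneg_right h2 (Real.rpow_nonneg hQ0.le _)
        _ = w' v s * (Q ^ pE * T) := by ring
        _ ≤ w' v s * Q ^ (pE + pE * N + (⌈W⌉₊ : ℕ)) :=
            mul_le_mul_of_nonneg_left hTle (hw'.1 v s).le
    · calc w' v s ≤ w₂ v s * T := h1
        _ ≤ Q ^ pE * T := mul_le_mul_of_nonneg_right (hw₂E v s).2 hT0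
        _ ≤ Q ^ (pE + pE * N + (⌈W⌉₊ : ℕ)) := hTle
  · rw [← hVY, hspan]
    have h1 : D₁ * (G / H) ^ (-(1 / (N : ℝ))) =
        D₁ * H ^ (1 / (N : ℝ)) * G ^ (-(1 / (N : ℝ))) := by
      rw [Real.div_rpow hG0.le hH0.le, Real.rpow_neg hH0.le, div_inv_eq_mul]
      ring
    rw [h1]
  · have h1 := hF X hXli
    rw [hV]
    refine h1.trans ?_
    congr 1
    ext y
    constructor
    · rintro ⟨c, hc, rfl⟩
      refine ⟨e c, ?_, rfl⟩
      have : ¬ k ≤ (c : ℕ) := fun h => hc ((hs₀ c).2 h)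
      show ((e c : Fin (Fintype.card (Fin n))) : ℕ) < k
      rw [hev]
      omega
    · rintro ⟨c, hc, rfl⟩
      refine ⟨e.symm c, ?_, by simp [hX]⟩
      intro h
      have h2 := (hs₀ _).1 h
      have h3 : ((e.symm c : Fin n) : ℕ) = c := rfl
      have h4 : (c : ℕ) < k := hc
      omega

end Pool.Agent.H21.UE
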